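import Mathlib

/-!
# Coefficient truncation is unbounded in `L_p` of the circle for every `0 < p < 2`
-/

open MeasureTheory Filter Topology AddCircle
open scoped ComplexConjugate Real

namespace Pool.Agent.Results.MP_2fd64a_an.Unbounded

local instance : Fact (0 < 2 * π) := ⟨Real.two_pi_pos⟩

/-- the circle `ℝ / 2πℤ` -/
abbrev 𝕋 : Type := AddCircle (2 * π)

/-- normalised Haar measure -/
noncomputable abbrev μ : Measure 𝕋 := haarAddCircle

/-- composition with `x ↦ N x` -/
noncomputable def dil (N : ℕ) (g : C(𝕋, ℂ)) : C(𝕋, ℂ) :=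
  ⟨fun x => g (N • x), g.continuous.comp (continuous_nsmul N)⟩

lemma integral_dil (N : ℕ) (hN : N ≠ 0) (g : C(𝕋, ℂ)) : ∫ x, dil N g x ∂μ = ∫ x, g x ∂μ := by
  have h := (Measure.measurePreserving_zsmul μ (n := (N : ℤ)) (by exact_mod_cast hN))
  conv_rhs => rw [← h.map_eq]
  rw [integral_map h.measurable.aemeasurable g.continuous.aestronglyMeasurable]
  simp [dil]

lemma integral_fourier_dil (m : ℤ) (N : ℕ) (hm : m ≠ 0) (hN : |m| < N) (g : C(𝕋, ℂ)) :
    ∫ x, fourier m x * dil N g x ∂μ = 0 := by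
  have hN0 : (N : ℝ) ≠ 0 := by
    have : (0 : ℤ) < N := lt_of_le_of_lt (abs_nonneg m) hN
    have : 0 < N := by exact_mod_cast this
    positivity
  let y : 𝕋 := ((2 * π / N : ℝ) : 𝕋)
  have hy : N • y = 0 := by
    have : N • y = ((N • (2 * π / N) : ℝ) : 𝕋) := rfl
    rw [this, nsmul_eq_mul, mul_div_cancel₀ _ hN0]
    exact AddCircle.coe_period _
  have h1 : ∫ x, fourier m x * dil N g x ∂μ = ∫ x, fourier m (x + y) * dil N g (x + y) ∂μ :=
    (integral_add_right_eq_self (μ := μ) (fun x => fourier m x * dil N g x) y).symm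
  have h2 : ∀ x, fourier m (x + y) * dil N g (x + y) = fourier m y * (fourier m x * dil N g x) := by
    intro x
    have e1 : dil N g (x + y) = dil N g x := by
      simp only [dil, ContinuousMap.coe_mk, smul_add, hy, add_zero]
    have e2 : (fourier m (x + y) : ℂ) = fourier m x * fourier m y := by
      simp [fourier_apply, smul_add, toCircle_add]
    rw [e1, e2]
    ring
  have h3 : (fourier m y : ℂ) ≠ 1 := by
    rw [fourier_coe_apply]
    intro h
    rw [Complex.exp_eq_one_iff] at h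
    obtain ⟨k, hk⟩ := h
    have hpi : (π : ℂ) ≠ 0 := by exact_mod_cast Real.pi_ne_zero
    have hNC : (N : ℂ) ≠ 0 := by exact_mod_cast hN0
    have hk2 : (m : ℂ) = k * N := by
      have : (2 * (π : ℂ) * Complex.I) * (m / N) = (2 * π * Complex.I) * k := by
        push_cast at hk
        rw [show (2 * (π : ℂ) * Complex.I) * k = k * (2 * π * Complex.I) by ring, ← hk]
        field_simp
      have h2pi : (2 * (π : ℂ) * Complex.I) ≠ 0 := Complex.two_pi_I_ne_zero
      have := mul_left_cancel₀ h2pi this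
      field_simp at this
      rw [this, mul_comm]
    have hk3 : m = k * N := by exact_mod_cast hk2
    rw [hk3, abs_mul, Nat.abs_cast] at hN
    have hk0 : k ≠ 0 := by
      rintro rfl
      simp at hk3
      exact hm hk3
    have : 1 ≤ |k| := Int.one_le_abs hk0
    nlinarith [Nat.zero_le N]
  simp only [h2] at h1
  rw [integral_const_mul] at h1
  have h4 : (1 - (fourier m y : ℂ)) * ∫ x, fourier m x * dil N g x ∂μ = 0 := by
    linear_combination h1
  rcases mul_eq_zero.1 h4 with h5 | h5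
  · exact absurd (sub_eq_zero.1 h5).symm h3
  · exact h5

lemma integral_fourier (m : ℤ) (hm : m ≠ 0) : ∫ x, fourier m x ∂μ = 0 := by
  have := integral_fourier_dil m (m.natAbs + 1) hm (by push_cast; omega) 1
  simpa [dil] using this

lemma cint (f : C(𝕋, ℂ)) : Integrable (fun x => f x) μ :=
  f.continuous.integrable_of_hasCompactSupport (HasCompactSupport.of_compactSpace _)

lemma norm_int_le (f : C(𝕋, ℂ)) : ‖∫ x, f x ∂μ‖ ≤ ‖f‖ := by
  have := norm_integral_le_of_norm_le_const (μ := μ) (f := fun x => f x) (C := ‖f‖)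
    (Eventually.of_forall fun x => f.norm_coe_le_norm x)
  simpa using this

lemma lam_bound (f g : C(𝕋, ℂ)) (N : ℕ) :
    ‖(∫ x, f x * dil N g x ∂μ) - (∫ x, f x ∂μ) * ∫ x, g x ∂μ‖ ≤ 2 * ‖g‖ * ‖f‖ := by
  have h1 : ‖∫ x, f x * dil N g x ∂μ‖ ≤ ‖f‖ * ‖g‖ := by
    refine (norm_int_le (f * dil N g)).trans ((norm_mul_le _ _).trans ?_)
    gcongr
    rw [ContinuousMap.norm_le _ (norm_nonneg g)]
    intro x
    exact g.norm_coe_le_norm _
  have h2 : ‖(∫ x, f x ∂μ) * ∫ x, g x ∂μ‖ ≤ ‖f‖ * ‖g‖ := by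
    rw [norm_mul]
    gcongr
    · exact norm_int_le f
    · exact norm_int_le g
  calc _ ≤ _ := norm_sub_le _ _
    _ ≤ ‖f‖ * ‖g‖ + ‖f‖ * ‖g‖ := add_le_add h1 h2
    _ = _ := by ring

/-- Fejér's lemma -/
lemma fejer (f g : C(𝕋, ℂ)) : Tendsto (fun N : ℕ => ∫ x, f x * dil N g x ∂μ) atTop
    (𝓝 ((∫ x, f x ∂μ) * ∫ x, g x ∂μ)) := by
  let V : Submodule ℂ C(𝕋, ℂ) :=
    { carrier := {f | Tendsto (fun N : ℕ => ∫ x, f x * dil N g x ∂μ) atTop
        (𝓝 ((∫ x, f x ∂μ) * ∫ x, g x ∂μ))}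
      add_mem' := by
        intro f1 f2 h1 h2
        have := h1.add h2
        simp only [Set.mem_ofPred_eq, ContinuousMap.add_apply, add_mul]
        rw [integral_add (cint f1) (cint f2), add_mul]
        refine this.congr fun N => ?_
        exact (integral_add (cint (f1 * dil N g)) (cint (f2 * dil N g))).symm
      zero_mem' := by
        simp
      smul_mem' := by
        intro c f1 h1
        have := h1.const_mul c
        simp only [Set.mem_ofPred_eq, ContinuousMap.smul_apply, smul_eq_mul, mul_assoc]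
        rw [integral_const_mul, mul_assoc]
        refine this.congr fun N => ?_
        exact (integral_const_mul c _).symm }
  have hcl : IsClosed (V : Set C(𝕋, ℂ)) := by
    refine isClosed_of_closure_subset fun f hf => ?_
    show Tendsto (fun N : ℕ => ∫ x, f x * dil N g x ∂μ) atTop
        (𝓝 ((∫ x, f x ∂μ) * ∫ x, g x ∂μ))
    rw [Metric.tendsto_atTop]
    intro ε hε
    obtain ⟨f', hf', hd⟩ := Metric.mem_closure_iff.1 hf (ε / (2 * (2 * ‖g‖ + 1))) (by positivity)
    have hf'' : Tendsto (fun N : ℕ => ∫ x, f' x * dil N g x ∂μ) atTop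
        (𝓝 ((∫ x, f' x ∂μ) * ∫ x, g x ∂μ)) := hf'
    rw [Metric.tendsto_atTop] at hf''
    obtain ⟨N0, hN0⟩ := hf'' (ε / 2) (by positivity)
    refine ⟨N0, fun N hN => ?_⟩
    have h1 := hN0 N hN
    have h2 := lam_bound (f - f') g N
    rw [dist_eq_norm] at h1 hd ⊢
    have h3 : (∫ x, f x * dil N g x ∂μ) - (∫ x, f x ∂μ) * ∫ x, g x ∂μ =
        ((∫ x, (f - f') x * dil N g x ∂μ) - (∫ x, (f - f') x ∂μ) * ∫ x, g x ∂μ) +
        ((∫ x, f' x * dil N g x ∂μ) - (∫ x, f' x ∂μ) * ∫ x, g x ∂μ) := by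
      have e1 : ∫ x, (f - f') x ∂μ = (∫ x, f x ∂μ) - ∫ x, f' x ∂μ :=
        integral_sub (cint f) (cint f')
      have e2 : ∫ x, (f - f') x * dil N g x ∂μ =
          (∫ x, f x * dil N g x ∂μ) - ∫ x, f' x * dil N g x ∂μ := by
        calc _ = ∫ x, ((f * dil N g) x - (f' * dil N g) x) ∂μ := by
              congr 1
              ext x
              simp only [ContinuousMap.sub_apply, ContinuousMap.mul_apply]
              ring
          _ = _ := integral_sub (cint (f * dil N g)) (cint (f' * dil N g))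
      rw [e1, e2]
      ring
    rw [h3]
    have h4 : 2 * ‖g‖ * ‖f - f'‖ < ε / 2 := by
      have h5 : (2 * ‖g‖ + 1) * ‖f - f'‖ < ε / 2 := by
        have h6 := mul_lt_mul_of_pos_left hd (show 0 < 2 * ‖g‖ + 1 by positivity)
        have h7 : (2 * ‖g‖ + 1) * (ε / (2 * (2 * ‖g‖ + 1))) = ε / 2 := by
          field_simp
        rwa [h7] at h6
      nlinarith [norm_nonneg (f - f')]
    calc _ ≤ _ := norm_add_le _ _
      _ < ε / 2 + ε / 2 := by linarith
      _ = ε := by ring
  have hsub : Submodule.span ℂ (Set.range (@fourier (2 * π))) ≤ V := by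
    rw [Submodule.span_le]
    rintro _ ⟨m, rfl⟩
    show Tendsto (fun N : ℕ => ∫ x, fourier m x * dil N g x ∂μ) atTop
        (𝓝 ((∫ x, fourier m x ∂μ) * ∫ x, g x ∂μ))
    by_cases hm : m = 0
    · subst hm
      refine tendsto_const_nhds.congr' ?_
      filter_upwards [eventually_ne_atTop 0] with N hN
      simp [integral_dil N hN g]
    · rw [integral_fourier m hm, zero_mul]
      refine tendsto_const_nhds.congr' ?_
      filter_upwards [eventually_gt_atTop m.natAbs] with N hN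
      refine (integral_fourier_dil m N hm ?_ g).symm
      rw [Int.abs_eq_natAbs]
      exact_mod_cast hN
  have htop : (Submodule.span ℂ (Set.range (@fourier (2 * π)))).topologicalClosure ≤ V :=
    Submodule.topologicalClosure_minimal _ hsub hcl
  rw [span_fourier_closure_eq_top] at htop
  exact htop (Submodule.mem_top (x := f))

/-! ### Polynomials -/

open Polynomial

/-- the truncation `a ↦ (a / |a|) min(|a|, 1)` of a coefficient -/
noncomputable def trunc (a : ℂ) : ℂ := a / ‖a‖ * min ‖a‖ 1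

/-- the coefficient truncation operator -/
noncomputable def S (P : ℂ[X]) : ℂ[X] :=
  ∑ j ∈ Finset.range (P.natDegree + 1), monomial j (trunc (P.coeff j))

/-- the quasi-norm of `L_p` of the unit circle with arc length measure -/
noncomputable def pnorm (p : ℝ) (P : ℂ[X]) : ℝ :=
  (∫ t in (0 : ℝ)..2 * π, ‖P.eval (Complex.exp (t * Complex.I))‖ ^ p) ^ (1 / p)

lemma trunc_zero : trunc 0 = 0 := by simp [trunc]

lemma coeff_S (P : ℂ[X]) (m : ℕ) : (S P).coeff m = trunc (P.coeff m) := by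
  rw [S, finsetSum_coeff]
  simp only [coeff_monomial]
  rw [Finset.sum_ite_eq']
  split_ifs with h
  · rfl
  · rw [coeff_eq_zero_of_natDegree_lt, trunc_zero]
    simpa using h

lemma trunc_of_one_le (a : ℂ) (h : 1 ≤ ‖a‖) : trunc a = a / ‖a‖ := by
  simp [trunc, min_eq_right h]

lemma trunc_of_norm_one (a : ℂ) (h : ‖a‖ = 1) : trunc a = a := by
  rw [trunc_of_one_le a h.ge, h]
  simp

lemma trunc_mul (a b : ℂ) (ha : a = 0 ∨ 1 ≤ ‖a‖) (hb : b = 0 ∨ 1 ≤ ‖b‖) :
    trunc (a * b) = trunc a * trunc b := by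
  rcases ha with rfl | ha
  · simp [trunc_zero]
  rcases hb with rfl | hb
  · simp [trunc_zero]
  rw [trunc_of_one_le a ha, trunc_of_one_le b hb, trunc_of_one_le, norm_mul]
  · push_cast
    rw [mul_div_mul_comm]
  · rw [norm_mul]
    nlinarith

lemma coeff_mul_expand (P R : ℂ[X]) (N : ℕ) (hN : P.natDegree < N) (m : ℕ) :
    (P * expand ℂ N R).coeff m = P.coeff (m % N) * R.coeff (m / N) := by
  have hN0 : 0 < N := by omega
  induction R using Polynomial.induction_on' with
  | add p q hp hq => rw [map_add, mul_add, coeff_add, hp, hq, coeff_add, mul_add]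
  | monomial k r =>
    have e : P * expand ℂ N (monomial k r) = (P * C r) * X ^ (k * N) := by
      rw [expand_monomial, ← C_mul_X_pow_eq_monomial, mul_assoc]
    rw [e, coeff_mul_X_pow', coeff_monomial, coeff_mul_C]
    have hdm := Nat.div_add_mod m N
    split_ifs with h1 h2 h2
    · subst h2
      congr 2
      rw [mul_comm]
      omega
    · have hk : k < m / N := by
        refine lt_of_le_of_ne ?_ h2
        rw [Nat.le_div_iff_mul_le hN0]
        exact h1
      have : N ≤ m - k * N := by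
        have : (k + 1) * N ≤ m := by
          calc (k + 1) * N ≤ (m / N) * N := Nat.mul_le_mul_right _ hk
            _ ≤ m := Nat.div_mul_le_self m N
        have e : (k + 1) * N = k * N + N := by ring
        omega
      rw [coeff_eq_zero_of_natDegree_lt (by omega)]
      simp
    · subst h2
      exact absurd (Nat.div_mul_le_self m N) h1
    · simp

/-- every nonzero coefficient has modulus at least one -/
def Big (P : ℂ[X]) : Prop := ∀ j, P.coeff j = 0 ∨ 1 ≤ ‖P.coeff j‖

lemma natDegree_S_le (P : ℂ[X]) : (S P).natDegree ≤ P.natDegree := by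
  rw [natDegree_le_iff_coeff_eq_zero]
  intro m hm
  rw [coeff_S, coeff_eq_zero_of_natDegree_lt hm, trunc_zero]

lemma S_mul_expand (P R : ℂ[X]) (N : ℕ) (hN : P.natDegree < N) (hP : Big P) (hR : Big R) :
    S (P * expand ℂ N R) = S P * expand ℂ N (S R) := by
  ext m
  rw [coeff_S, coeff_mul_expand P R N hN,
    coeff_mul_expand (S P) (S R) N ((natDegree_S_le P).trans_lt hN), coeff_S, coeff_S,
    trunc_mul _ _ (hP _) (hR _)]

lemma Big.mul_expand {P R : ℂ[X]} (hP : Big P) (hR : Big R) (N : ℕ) (hN : P.natDegree < N) :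
    Big (P * expand ℂ N R) := by
  intro m
  rw [coeff_mul_expand P R N hN]
  rcases hP (m % N) with h | h
  · left; rw [h, zero_mul]
  rcases hR (m / N) with h' | h'
  · left; rw [h', mul_zero]
  right
  rw [norm_mul]
  nlinarith

/-- the point of the unit circle with parameter `x` -/
noncomputable def pt (x : 𝕋) : ℂ := (toCircle x : ℂ)

lemma continuous_pt : Continuous pt :=
  continuous_induced_dom.comp continuous_toCircle

lemma norm_pt (x : 𝕋) : ‖pt x‖ = 1 := by simp [pt]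

lemma pt_nsmul (N : ℕ) (x : 𝕋) : pt (N • x) = pt x ^ N := by
  simp [pt, toCircle_nsmul]

/-- `|P|^p` as a continuous function on the circle -/
noncomputable def absPow (p : ℝ) (hp : 0 < p) (P : ℂ[X]) : C(𝕋, ℂ) :=
  ⟨fun x => ((‖P.eval (pt x)‖ ^ p : ℝ) : ℂ), by
    refine Complex.continuous_ofReal.comp ?_
    exact ((P.continuous.comp continuous_pt).norm).rpow_const fun _ => Or.inr hp.le⟩

/-- the integral of `|P|^p` over the circle with normalised measure -/
noncomputable def I (p : ℝ) (P : ℂ[X]) : ℝ := ∫ x, ‖P.eval (pt x)‖ ^ p ∂μ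

lemma integral_absPow (p : ℝ) (hp : 0 < p) (P : ℂ[X]) : ∫ x, absPow p hp P x ∂μ = (I p P : ℂ) := by
  simp only [absPow, ContinuousMap.coe_mk, I]
  exact integral_ofReal

lemma tendsto_I (p : ℝ) (hp : 0 < p) (P R : ℂ[X]) :
    Tendsto (fun N : ℕ => I p (P * expand ℂ N R)) atTop (𝓝 (I p P * I p R)) := by
  have h := fejer (absPow p hp P) (absPow p hp R)
  rw [integral_absPow, integral_absPow, ← Complex.ofReal_mul] at h
  have h2 : ∀ N : ℕ, ∫ x, absPow p hp P x * dil N (absPow p hp R) x ∂μ =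
      (I p (P * expand ℂ N R) : ℂ) := by
    intro N
    rw [← integral_absPow p hp]
    congr 1
    ext x
    simp only [absPow, dil, ContinuousMap.coe_mk, eval_mul, expand_eval, pt_nsmul, norm_mul]
    rw [Real.mul_rpow (norm_nonneg _) (norm_nonneg _)]
    push_cast
    rfl
  simp only [h2] at h
  exact (Complex.continuous_re.tendsto _).comp h

lemma I_nonneg (p : ℝ) (P : ℂ[X]) : 0 ≤ I p P :=
  integral_nonneg fun _ => Real.rpow_nonneg (norm_nonneg _) _

/-- tensor powers -/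
lemma powers (p : ℝ) (hp : 0 < p) (P : ℂ[X]) (hP : Big P) (r : ℝ) (hr : 0 ≤ r)
    (h : r * I p P < I p (S P)) (k : ℕ) :
    ∃ R : ℂ[X], Big R ∧ r ^ (k + 1) * I p R < I p (S R) := by
  induction k with
  | zero => exact ⟨P, hP, by simpa using h⟩
  | succ k ih =>
    obtain ⟨R, hR, hk⟩ := ih
    have t1 := (tendsto_I p hp R P).const_mul (r ^ (k + 1 + 1))
    have t2 := tendsto_I p hp (S R) (S P)
    have hlt : r ^ (k + 1 + 1) * (I p R * I p P) < I p (S R) * I p (S P) := by
      have e : r ^ (k + 1 + 1) * (I p R * I p P) = (r ^ (k + 1) * I p R) * (r * I p P) := by ring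
      rw [e]
      have h0 := I_nonneg p R
      have h1 := I_nonneg p P
      exact mul_lt_mul'' hk h (by positivity) (by positivity)
    obtain ⟨N, hN, hN2⟩ := ((t1.eventually_lt t2 hlt).and
      (eventually_gt_atTop R.natDegree)).exists
    refine ⟨R * expand ℂ N P, hR.mul_expand hP N hN2, ?_⟩
    rw [S_mul_expand R P N hN2 hR hP]
    exact hN

/-! ### The first variation -/

/-- every nonzero coefficient is unimodular -/
def Uni (P : ℂ[X]) : Prop := ∀ j, P.coeff j = 0 ∨ ‖P.coeff j‖ = 1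

/-- no zero on the unit circle -/
def NV (P : ℂ[X]) : Prop := ∀ x : 𝕋, P.eval (pt x) ≠ 0

/-- the density of the first variation of `∫ |Q|^p` in the direction of the `j`-th term -/
noncomputable def F (p : ℝ) (Q : ℂ[X]) (hQ : NV Q) (j : ℕ) : C(𝕋, ℂ) :=
  ⟨fun x => ((‖Q.eval (pt x)‖ ^ (p - 2) : ℝ) : ℂ) * conj (Q.eval (pt x)) *
      (Q.coeff j * pt x ^ j), by
    have h1 : Continuous fun x : 𝕋 => Q.eval (pt x) := Q.continuous.comp continuous_pt
    refine ((Complex.continuous_ofReal.comp (h1.norm.rpow_const fun x => Or.inl ?_)).mul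
      (Complex.continuous_conj.comp h1)).mul (continuous_const.mul (continuous_pt.pow j))
    exact norm_ne_zero_iff.2 (hQ x)⟩

lemma NV.mul_expand {Q R : ℂ[X]} (hQ : NV Q) (hR : NV R) (N : ℕ) : NV (Q * expand ℂ N R) := by
  intro x
  rw [eval_mul, expand_eval, ← pt_nsmul]
  exact mul_ne_zero (hQ x) (hR _)

lemma Uni.mul_expand {P R : ℂ[X]} (hP : Uni P) (hR : Uni R) (N : ℕ) (hN : P.natDegree < N) :
    Uni (P * expand ℂ N R) := by
  intro m
  rw [coeff_mul_expand P R N hN]
  rcases hP (m % N) with h | h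
  · left; rw [h, zero_mul]
  rcases hR (m / N) with h' | h'
  · left; rw [h', mul_zero]
  right
  rw [norm_mul, h, h', one_mul]

lemma F_mul_expand (p : ℝ) (Q R : ℂ[X]) (hQ : NV Q) (hR : NV R) (j i N : ℕ)
    (hN : Q.natDegree < N) (hj : Q.coeff j ≠ 0) :
    F p (Q * expand ℂ N R) (hQ.mul_expand hR N) (j + N * i) = F p Q hQ j * dil N (F p R hR i) := by
  ext x
  have hjN : j < N := (le_natDegree_of_ne_zero hj).trans_lt hN
  have e1 : (j + N * i) % N = j := by
    rw [Nat.add_mul_mod_self_left, Nat.mod_eq_of_lt hjN]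
  have e2 : (j + N * i) / N = i := by
    rw [Nat.add_mul_div_left _ _ (by omega), Nat.div_eq_of_lt hjN, zero_add]
  simp only [F, dil, ContinuousMap.coe_mk, ContinuousMap.mul_apply, coeff_mul_expand Q R N hN, e1,
    e2, eval_mul, expand_eval, pt_nsmul, norm_mul, map_mul]
  rw [Real.mul_rpow (norm_nonneg _) (norm_nonneg _), pow_add, pow_mul]
  push_cast
  ring

lemma variation_powers (p : ℝ) (R : ℂ[X]) (hR : NV R) (hU : Uni R) (i : ℕ) (hi : R.coeff i ≠ 0)
    (k : ℕ) : ∀ η > 0, ∃ (Q : ℂ[X]) (hQ : NV Q) (j : ℕ), Uni Q ∧ Q.coeff j ≠ 0 ∧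
      ‖(∫ x, F p Q hQ j x ∂μ) - (∫ x, F p R hR i x ∂μ) ^ k‖ < η := by
  induction k with
  | zero =>
    intro η hη
    refine ⟨1, fun x => by simp, 0, ?_, by simp, ?_⟩
    · intro j
      by_cases hj : j = 0
      · right; simp [hj]
      · left; simp [coeff_one, hj]
    · simpa [F] using hη
  | succ k ih =>
    intro η hη
    set h0 := ∫ x, F p R hR i x ∂μ with hh0
    obtain ⟨Q, hQ, j, hQU, hj, hd⟩ := ih (η / (2 * (‖h0‖ + 1))) (by positivity)
    have t := fejer (F p Q hQ j) (F p R hR i)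
    rw [Metric.tendsto_atTop] at t
    obtain ⟨N0, hN0⟩ := t (η / 2) (by positivity)
    let N := max N0 (Q.natDegree + 1)
    have hN1 : N0 ≤ N := le_max_left _ _
    have hN2 : Q.natDegree < N := lt_of_lt_of_le (Nat.lt_succ_self _) (le_max_right _ _)
    have hjN : j < N := (le_natDegree_of_ne_zero hj).trans_lt hN2
    refine ⟨Q * expand ℂ N R, hQ.mul_expand hR N, j + N * i, hQU.mul_expand hU N hN2, ?_, ?_⟩
    · rw [coeff_mul_expand Q R N hN2, Nat.add_mul_mod_self_left, Nat.mod_eq_of_lt hjN,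
        Nat.add_mul_div_left _ _ (by omega), Nat.div_eq_of_lt hjN, zero_add]
      exact mul_ne_zero hj hi
    · rw [F_mul_expand p Q R hQ hR j i N hN2 hj]
      have h1 := hN0 N hN1
      rw [dist_eq_norm] at h1
      have h2 : (∫ x, (F p Q hQ j * dil N (F p R hR i)) x ∂μ) - h0 ^ (k + 1) =
          ((∫ x, F p Q hQ j x * dil N (F p R hR i) x ∂μ) - (∫ x, F p Q hQ j x ∂μ) * h0) +
          ((∫ x, F p Q hQ j x ∂μ) - h0 ^ k) * h0 := by
        simp only [ContinuousMap.mul_apply]
        ring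
      rw [h2]
      have h3 : ‖((∫ x, F p Q hQ j x ∂μ) - h0 ^ k) * h0‖ ≤ η / 2 := by
        rw [norm_mul]
        calc _ ≤ (η / (2 * (‖h0‖ + 1))) * (‖h0‖ + 1) := by
              gcongr
              linarith
          _ = η / 2 := by field_simp
      calc _ ≤ _ := norm_add_le _ _
        _ < η / 2 + η / 2 := by linarith
        _ = η := by ring

lemma tangent (s x y : ℝ) (hs0 : 0 ≤ s) (hs1 : s ≤ 1) (hx : 0 ≤ x) (hy : 0 < y) :
    x ^ s ≤ y ^ s + s * y ^ (s - 1) * (x - y) := by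
  have h1 : (-1 : ℝ) ≤ x / y - 1 := by
    have : 0 ≤ x / y := by positivity
    linarith
  have h := rpow_one_add_le_one_add_mul_self h1 hs0 hs1
  rw [add_sub_cancel, Real.div_rpow hx hy.le, div_le_iff₀ (by positivity)] at h
  rw [Real.rpow_sub_one hy.ne']
  calc x ^ s ≤ _ := h
    _ = _ := by
      field_simp

lemma pointwise (p : ℝ) (hp0 : 0 < p) (hp2 : p < 2) (w u : ℂ) (hw : w ≠ 0) (hu : ‖u‖ = 1)
    (δ : ℝ) : ‖w + δ * u‖ ^ p ≤ ‖w‖ ^ p + p * δ * (((‖w‖ ^ (p - 2) : ℝ) : ℂ) * conj w * u).re +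
      p / 2 * δ ^ 2 * ‖w‖ ^ (p - 2) := by
  have hw' : 0 < ‖w‖ := norm_pos_iff.2 hw
  have h := tangent (p / 2) (‖w + δ * u‖ ^ 2) (‖w‖ ^ 2) (by positivity) (by linarith)
    (by positivity) (by positivity)
  have e1 : (‖w + δ * u‖ ^ 2) ^ (p / 2) = ‖w + δ * u‖ ^ p := by
    rw [← Real.rpow_natCast, ← Real.rpow_mul (norm_nonneg _)]
    congr 1
    push_cast
    ring
  have e2 : (‖w‖ ^ 2) ^ (p / 2) = ‖w‖ ^ p := by
    rw [← Real.rpow_natCast, ← Real.rpow_mul (norm_nonneg _)]
    congr 1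
    push_cast
    ring
  have e3 : (‖w‖ ^ 2) ^ (p / 2 - 1) = ‖w‖ ^ (p - 2) := by
    rw [← Real.rpow_natCast, ← Real.rpow_mul (norm_nonneg _)]
    congr 1
    push_cast
    ring
  have e4 : ‖w + δ * u‖ ^ 2 - ‖w‖ ^ 2 = 2 * δ * (conj w * u).re + δ ^ 2 := by
    have hu2 : Complex.normSq u = 1 := by rw [Complex.normSq_eq_norm_sq, hu, one_pow]
    rw [← Complex.normSq_eq_norm_sq, ← Complex.normSq_eq_norm_sq]
    rw [Complex.normSq_apply] at hu2
    simp only [Complex.normSq_apply, Complex.add_re, Complex.add_im, Complex.mul_re,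
      Complex.mul_im, Complex.ofReal_re, Complex.ofReal_im, Complex.conj_re, Complex.conj_im]
    linear_combination δ ^ 2 * hu2
  have e5 : (((‖w‖ ^ (p - 2) : ℝ) : ℂ) * conj w * u).re = ‖w‖ ^ (p - 2) * (conj w * u).re := by
    rw [mul_assoc, Complex.re_ofReal_mul]
  rw [e1, e2, e3, e4] at h
  rw [e5]
  linarith

lemma rint {f : 𝕋 → ℝ} (hf : Continuous f) : Integrable f μ :=
  hf.integrable_of_hasCompactSupport (HasCompactSupport.of_compactSpace _)

/-- if the first variation in the `j`-th coefficient has negative real part, the ratio exceeds 1 -/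
lemma perturb (p : ℝ) (hp0 : 0 < p) (hp2 : p < 2) (Q : ℂ[X]) (hQ : NV Q) (hU : Uni Q) (j : ℕ)
    (hj : Q.coeff j ≠ 0) (hneg : (∫ x, F p Q hQ j x ∂μ).re < 0) :
    ∃ P : ℂ[X], Big P ∧ I p P < I p (S P) := by
  have cQ : Continuous fun x : 𝕋 => Q.eval (pt x) := Q.continuous.comp continuous_pt
  have cM : Continuous fun x : 𝕋 => ‖Q.eval (pt x)‖ ^ (p - 2) :=
    cQ.norm.rpow_const fun x => Or.inl (norm_ne_zero_iff.2 (hQ x))
  set M := ∫ x, ‖Q.eval (pt x)‖ ^ (p - 2) ∂μ with hM
  have hM0 : 0 ≤ M := integral_nonneg fun _ => Real.rpow_nonneg (norm_nonneg _) _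
  set A := -(∫ x, F p Q hQ j x ∂μ).re with hA
  have hA0 : 0 < A := by linarith
  set δ := A / (M + 1) with hδ
  have hδ0 : 0 < δ := by positivity
  have hcj : ‖Q.coeff j‖ = 1 := (hU j).resolve_left hj
  let P : ℂ[X] := Q + monomial j (δ * Q.coeff j)
  have hPc : ∀ m, P.coeff m = if j = m then (1 + δ) * Q.coeff m else Q.coeff m := by
    intro m
    simp only [P, coeff_add, coeff_monomial]
    split_ifs with h
    · subst h; ring
    · ring
  have hnorm : ‖(1 + δ : ℂ) * Q.coeff j‖ = 1 + δ := by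
    rw [norm_mul, hcj, mul_one]
    rw [show (1 + δ : ℂ) = ((1 + δ : ℝ) : ℂ) by push_cast; rfl, Complex.norm_real,
      Real.norm_eq_abs, abs_of_pos (by positivity)]
  have hS : S P = Q := by
    ext m
    rw [coeff_S, hPc]
    split_ifs with h
    · subst h
      rw [trunc_of_one_le _ (by rw [hnorm]; linarith), hnorm]
      have : ((1 + δ : ℝ) : ℂ) ≠ 0 := by
        exact_mod_cast (by positivity : (1 + δ : ℝ) ≠ 0)
      push_cast at this ⊢
      field_simp
    · rcases hU m with h1 | h1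
      · rw [h1, trunc_zero]
      · exact trunc_of_norm_one _ h1
  refine ⟨P, ?_, ?_⟩
  · intro m
    rw [hPc]
    split_ifs with h
    · subst h
      right
      rw [hnorm]
      linarith
    · rcases hU m with h1 | h1
      · exact Or.inl h1
      · exact Or.inr h1.ge
  · rw [hS]
    have hev : ∀ x, P.eval (pt x) = Q.eval (pt x) + δ * (Q.coeff j * pt x ^ j) := by
      intro x
      simp only [P, eval_add, eval_monomial]
      ring
    have hpw : ∀ x, ‖P.eval (pt x)‖ ^ p ≤ ‖Q.eval (pt x)‖ ^ p + p * δ * (F p Q hQ j x).re +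
        p / 2 * δ ^ 2 * ‖Q.eval (pt x)‖ ^ (p - 2) := by
      intro x
      rw [hev]
      exact pointwise p hp0 hp2 _ _ (hQ x) (by rw [norm_mul, hcj, norm_pow, norm_pt]; simp) δ
    have c1 : Continuous fun x : 𝕋 => ‖P.eval (pt x)‖ ^ p :=
      ((P.continuous.comp continuous_pt).norm).rpow_const fun _ => Or.inr hp0.le
    have c2 : Continuous fun x : 𝕋 => ‖Q.eval (pt x)‖ ^ p :=
      cQ.norm.rpow_const fun _ => Or.inr hp0.le
    have c3 : Continuous fun x : 𝕋 => p * δ * (F p Q hQ j x).re :=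
      continuous_const.mul (Complex.continuous_re.comp (F p Q hQ j).continuous)
    have c4 : Continuous fun x : 𝕋 => p / 2 * δ ^ 2 * ‖Q.eval (pt x)‖ ^ (p - 2) :=
      continuous_const.mul cM
    have hre : ∫ x, (F p Q hQ j x).re ∂μ = -A := by
      rw [hA, neg_neg]
      exact integral_re (cint (F p Q hQ j))
    have hle : I p P ≤ I p Q + p * δ * (-A) + p / 2 * δ ^ 2 * M := by
      calc I p P ≤ ∫ x, (‖Q.eval (pt x)‖ ^ p + p * δ * (F p Q hQ j x).re +
            p / 2 * δ ^ 2 * ‖Q.eval (pt x)‖ ^ (p - 2)) ∂μ :=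
            integral_mono (rint c1) (rint ((c2.add c3).add c4)) hpw
        _ = (∫ x, (‖Q.eval (pt x)‖ ^ p + p * δ * (F p Q hQ j x).re) ∂μ) +
            ∫ x, p / 2 * δ ^ 2 * ‖Q.eval (pt x)‖ ^ (p - 2) ∂μ :=
            integral_add (rint (c2.add c3)) (rint c4)
        _ = ((∫ x, ‖Q.eval (pt x)‖ ^ p ∂μ) + ∫ x, p * δ * (F p Q hQ j x).re ∂μ) +
            ∫ x, p / 2 * δ ^ 2 * ‖Q.eval (pt x)‖ ^ (p - 2) ∂μ := by
            congr 1
            exact integral_add (rint c2) (rint c3)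
        _ = _ := by
            rw [integral_const_mul, integral_const_mul, hre]
            rfl
    have hlt : p * δ * (-A) + p / 2 * δ ^ 2 * M < 0 := by
      have h1 : δ * M < A := by
        rw [hδ, div_mul_eq_mul_div, div_lt_iff₀ (by positivity)]
        nlinarith
      have h2 : p / 2 * δ ^ 2 * M = (p / 2 * δ) * (δ * M) := by ring
      rw [h2]
      have h3 : (p / 2 * δ) * (δ * M) ≤ (p / 2 * δ) * A := by gcongr
      have h4 : 0 < p * δ * A := by positivity
      nlinarith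
    linarith

/-- some power of a non-real number has negative real part -/
lemma exists_pow_re_neg (h : ℂ) (him : h.im ≠ 0) : ∃ k : ℕ, (h ^ k).re < 0 := by
  by_contra hcon
  push Not at hcon
  have hn : 0 < ‖h‖ := norm_pos_iff.2 fun h0 => him (by rw [h0]; simp)
  have key : ∀ n k : ℕ, (1 - (1 / 2) ^ n) * ‖h‖ ^ k ≤ (h ^ k).re := by
    intro n
    induction n with
    | zero => intro k; simpa using hcon k
    | succ n ih =>
      intro k
      have h1 := ih (2 * k)
      have h2 : (h ^ (2 * k)).re = 2 * (h ^ k).re ^ 2 - (‖h‖ ^ k) ^ 2 := by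
        have e1 : (h ^ k).re ^ 2 + (h ^ k).im ^ 2 = (‖h‖ ^ k) ^ 2 := by
          rw [← norm_pow, ← Complex.normSq_eq_norm_sq, Complex.normSq_apply]
          ring
        rw [mul_comm 2 k, pow_mul, pow_two (h ^ k), Complex.mul_re]
        linear_combination (-1 : ℝ) * e1
      rw [h2, mul_comm 2 k, pow_mul] at h1
      have h3 : (h ^ k).re ≤ ‖h‖ ^ k := by
        rw [← norm_pow]
        exact Complex.re_le_norm _
      have h4 : 0 < ‖h‖ ^ k := by positivity
      have h5 := hcon k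
      have h6 : (1 - (1 / 2) ^ (n + 1)) * (‖h‖ ^ k) ^ 2 ≤ (h ^ k).re ^ 2 := by
        rw [pow_succ (1 / 2 : ℝ) n]
        nlinarith
      have h7 : (h ^ k).re ^ 2 ≤ (h ^ k).re * ‖h‖ ^ k := by nlinarith
      have h8 : ((1 - (1 / 2) ^ (n + 1)) * ‖h‖ ^ k) * ‖h‖ ^ k ≤ (h ^ k).re * ‖h‖ ^ k := by
        calc _ = (1 - (1 / 2) ^ (n + 1)) * (‖h‖ ^ k) ^ 2 := by ring
          _ ≤ _ := h6.trans h7
      exact le_of_mul_le_mul_right h8 h4
  have hlim : Tendsto (fun n : ℕ => (1 - (1 / 2 : ℝ) ^ n) * ‖h‖ ^ 1) atTop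
      (𝓝 ((1 - 0) * ‖h‖ ^ 1)) :=
    (tendsto_const_nhds.sub (tendsto_pow_atTop_nhds_zero_of_lt_one (by norm_num)
      (by norm_num))).mul_const _
  have hle := le_of_tendsto' hlim fun n => key n 1
  simp only [sub_zero, one_mul, pow_one] at hle
  have hsq : h.re ^ 2 + h.im ^ 2 = ‖h‖ ^ 2 := by
    rw [← Complex.normSq_eq_norm_sq, Complex.normSq_apply]
    ring
  have : 0 < h.im ^ 2 := by positivity
  nlinarith

/-! ### The seed -/

/-- the unimodular number `(3 + 4i)/5` -/
noncomputable def ω : ℂ := ⟨3 / 5, 4 / 5⟩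

lemma norm_ω : ‖ω‖ = 1 := by
  have : ‖ω‖ ^ 2 = 1 := by
    rw [← Complex.normSq_eq_norm_sq, Complex.normSq_apply, ω]
    norm_num
  nlinarith [norm_nonneg ω]

/-- the seed `1 + ω z + z²` -/
noncomputable def Q0 : ℂ[X] := 1 + C ω * X + X ^ 2

lemma eval_Q0 (x : 𝕋) : Q0.eval (pt x) = pt x * (ω + 2 * ((pt x).re : ℂ)) := by
  have h1 : pt x * conj (pt x) = 1 := by
    rw [Complex.mul_conj, Complex.normSq_eq_norm_sq, norm_pt]
    simp
  have h2 : (2 * ((pt x).re : ℂ)) = pt x + conj (pt x) := by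
    rw [Complex.add_conj]
    push_cast
    rfl
  rw [h2]
  simp only [Q0, eval_add, eval_one, eval_mul, eval_C, eval_X, eval_pow]
  linear_combination -h1

lemma ω_add_ne (c : ℝ) : ω + 2 * (c : ℂ) ≠ 0 := by
  intro h
  have := congrArg Complex.im h
  simp [ω] at this

lemma NV_Q0 : NV Q0 := by
  intro x
  rw [eval_Q0]
  refine mul_ne_zero ?_ (ω_add_ne _)
  intro h
  have := norm_pt x
  rw [h] at this
  simp at this

lemma coeff_Q0 (j : ℕ) : Q0.coeff j = if j = 0 then 1 else if j = 1 then ω else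
    if j = 2 then 1 else 0 := by
  simp only [Q0, coeff_add, coeff_one, coeff_C_mul, coeff_X, coeff_X_pow]
  rcases j with _ | _ | _ | j <;> simp

lemma Uni_Q0 : Uni Q0 := by
  intro j
  rw [coeff_Q0]
  split_ifs <;> simp [norm_ω]

lemma F_Q0 (p : ℝ) (x : 𝕋) : F p Q0 NV_Q0 1 x =
    ((‖ω + 2 * ((pt x).re : ℂ)‖ ^ (p - 2) : ℝ) : ℂ) * (1 + 2 * ((pt x).re : ℂ) * ω) := by
  have h1 : conj (pt x) * pt x = 1 := by
    rw [mul_comm, Complex.mul_conj, Complex.normSq_eq_norm_sq, norm_pt]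
    simp
  have h2 : conj ω * ω = 1 := by
    rw [mul_comm, Complex.mul_conj, Complex.normSq_eq_norm_sq, norm_ω]
    simp
  have h3 : Q0.coeff 1 = ω := by simp [coeff_Q0]
  simp only [F, ContinuousMap.coe_mk, eval_Q0, norm_mul, norm_pt, one_mul, h3, pow_one, map_mul,
    map_add, Complex.conj_ofReal, map_ofNat]
  linear_combination (((‖ω + 2 * ((pt x).re : ℂ)‖ ^ (p - 2) : ℝ) : ℂ)) *
    ((conj ω * ω + 2 * ((pt x).re : ℂ) * ω) * h1 + h2)

/-- the even-odd comparison function -/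
noncomputable def G (p c : ℝ) : ℝ := ‖ω + 2 * (c : ℂ)‖ ^ (p - 2) * c

lemma G_add_G_neg (p : ℝ) (hp2 : p < 2) (c : ℝ) : G p c + G p (-c) ≤ 0 ∧
    (c ≠ 0 → G p c + G p (-c) < 0) := by
  have hsq : ∀ c : ℝ, ‖ω + 2 * (c : ℂ)‖ ^ 2 = 1 + 12 / 5 * c + 4 * c ^ 2 := by
    intro c
    rw [← Complex.normSq_eq_norm_sq, Complex.normSq_apply]
    simp [ω]
    ring
  have hpos : ∀ c : ℝ, 0 < ‖ω + 2 * (c : ℂ)‖ := fun c => norm_pos_iff.2 (ω_add_ne c)
  have hlt : ∀ c : ℝ, 0 < c → ‖ω + 2 * ((-c : ℝ) : ℂ)‖ < ‖ω + 2 * (c : ℂ)‖ := by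
    intro c hc
    refine lt_of_pow_lt_pow_left₀ 2 (hpos c).le ?_
    rw [hsq, hsq]
    nlinarith
  have main : ∀ c : ℝ, 0 < c → G p c + G p (-c) < 0 := by
    intro c hc
    have h := Real.rpow_lt_rpow_of_neg (hpos (-c)) (hlt c hc) (show p - 2 < 0 by linarith)
    unfold G
    nlinarith
  have main2 : c ≠ 0 → G p c + G p (-c) < 0 := by
    intro hc
    rcases lt_or_gt_of_ne hc with h | h
    · have := main (-c) (by linarith)
      rw [neg_neg] at this
      linarith
    · exact main c h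
  refine ⟨?_, main2⟩
  by_cases hc : c = 0
  · subst hc; simp [G]
  · exact (main2 hc).le

lemma continuous_G (p : ℝ) : Continuous (G p) := by
  unfold G
  refine Continuous.mul (Continuous.rpow_const (by fun_prop) fun c => Or.inl ?_) continuous_id
  exact norm_ne_zero_iff.2 (ω_add_ne c)

lemma pt_add_half (x : 𝕋) : pt (x + ((π : ℝ) : 𝕋)) = - pt x := by
  have h : pt ((π : ℝ) : 𝕋) = -1 := by
    unfold pt
    rw [toCircle_apply_mk, Circle.coe_exp]
    have : 2 * π / (2 * π) * π = π := by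
      rw [div_self (by positivity), one_mul]
    rw [this]
    exact Complex.exp_pi_mul_I
  unfold pt at h ⊢
  rw [toCircle_add, Circle.coe_mul, h]
  ring

lemma im_ne (p : ℝ) (hp2 : p < 2) : (∫ x, F p Q0 NV_Q0 1 x ∂μ).im ≠ 0 := by
  have h1 : (∫ x, F p Q0 NV_Q0 1 x ∂μ).im = ∫ x, 8 / 5 * G p (pt x).re ∂μ := by
    rw [← Complex.imCLM_apply, ← ContinuousLinearMap.integral_comp_comm _ (cint _)]
    congr 1
    ext x
    rw [Complex.imCLM_apply, F_Q0, Complex.im_ofReal_mul]
    simp [ω, G]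
    ring
  have cre : Continuous fun x : 𝕋 => (pt x).re := Complex.continuous_re.comp continuous_pt
  have h2 : ∫ x, G p (pt x).re ∂μ = ∫ x, G p (-(pt x).re) ∂μ := by
    rw [← integral_add_right_eq_self (μ := μ) (fun x => G p (pt x).re) ((π : ℝ) : 𝕋)]
    simp only [pt_add_half, Complex.neg_re]
  have c1 : Continuous fun x : 𝕋 => G p (pt x).re := (continuous_G p).comp cre
  have c2 : Continuous fun x : 𝕋 => G p (-(pt x).re) := (continuous_G p).comp cre.neg
  have h3 : 0 < ∫ x, -(G p (pt x).re + G p (-(pt x).re)) ∂μ := by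
    refine Continuous.integral_pos_of_hasCompactSupport_nonneg_nonzero (x := 0) (c1.add c2).neg
      (HasCompactSupport.of_compactSpace _) ?_ ?_
    · intro x
      have := (G_add_G_neg p hp2 (pt x).re).1
      simp only [Pi.zero_apply]
      linarith
    · have h4 : (pt 0).re = 1 := by simp [pt]
      have := (G_add_G_neg p hp2 (pt 0).re).2 (by rw [h4]; norm_num)
      linarith
  rw [integral_neg, integral_add (rint c1) (rint c2), ← h2] at h3
  rw [h1, integral_const_mul]
  intro h5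
  have : ∫ x, G p (pt x).re ∂μ = 0 := by linarith
  rw [this] at h3
  simp at h3

lemma exists_seed (p : ℝ) (hp0 : 0 < p) (hp2 : p < 2) : ∃ P : ℂ[X], Big P ∧ I p P < I p (S P) := by
  obtain ⟨k, hk⟩ := exists_pow_re_neg _ (im_ne p hp2)
  obtain ⟨Q, hQ, j, hU, hj, hd⟩ := variation_powers p Q0 NV_Q0 Uni_Q0 1
    (by rw [coeff_Q0]; simp [ω, Complex.ext_iff]) k
    (-((∫ x, F p Q0 NV_Q0 1 x ∂μ) ^ k).re) (by linarith)
  refine perturb p hp0 hp2 Q hQ hU j hj ?_
  have h1 := (Complex.abs_re_le_norm _).trans hd.le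
  rw [Complex.sub_re, abs_le] at h1
  have h2 := (Complex.abs_re_le_norm _).trans_lt hd
  rw [Complex.sub_re, abs_lt] at h2
  linarith [h2.2]

lemma pnorm_eq (p : ℝ) (P : ℂ[X]) : pnorm p P = (2 * π * I p P) ^ (1 / p) := by
  unfold pnorm
  congr 1
  have h := AddCircle.intervalIntegral_preimage (2 * π) 0 (fun x : 𝕋 => ‖P.eval (pt x)‖ ^ p)
  rw [zero_add] at h
  have h2 : ∀ t : ℝ, pt (t : 𝕋) = Complex.exp (t * Complex.I) := by
    intro t
    unfold pt
    rw [toCircle_apply_mk, Circle.coe_exp]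
    have : 2 * π / (2 * π) * t = t := by
      rw [div_self (by positivity), one_mul]
    rw [this]
  simp only [h2] at h
  rw [h, I, integral_haarAddCircle, smul_eq_mul, mul_inv_cancel_left₀ (by positivity)]

/-- For every `p ∈ (0, 2)` the norms of the coefficient truncation operators on `L_p` of the
unit circle are unbounded. -/
theorem result (p : ℝ) (hp0 : 0 < p) (hp2 : p < 2) : ¬ ∃ c : ℝ, ∀ n : ℕ, ∀ P : ℂ[X],
    P ≠ 0 → P.natDegree ≤ n → pnorm p (S P) ≤ c * pnorm p P := by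
  rintro ⟨c, hc⟩
  obtain ⟨P0, hP0, hlt⟩ := exists_seed p hp0 hp2
  -- a ratio `r > 1`
  obtain ⟨r, hr1, hr⟩ : ∃ r : ℝ, 1 < r ∧ r * I p P0 < I p (S P0) := by
    have h0 := I_nonneg p P0
    have ht : Tendsto (fun r : ℝ => r * I p P0) (𝓝[>] 1) (𝓝 (1 * I p P0)) :=
      (tendsto_nhdsWithin_of_tendsto_nhds tendsto_id).mul_const _
    rw [one_mul] at ht
    obtain ⟨r, h1, h2⟩ := ((ht.eventually (gt_mem_nhds hlt)).and self_mem_nhdsWithin).exists
    exact ⟨r, h2, h1⟩
  obtain ⟨k, hk⟩ := ((tendsto_pow_atTop_atTop_of_one_lt hr1).eventually_gt_atTop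
    ((max c 0) ^ p)).exists
  obtain ⟨R, hR, hRI⟩ := powers p hp0 P0 hP0 r (by linarith) hr k
  have hRne : R ≠ 0 := by
    rintro rfl
    have : S 0 = 0 := by
      ext m
      rw [coeff_S]
      simp [trunc_zero]
    rw [this] at hRI
    have h0 : I p 0 = 0 := by
      simp [I, Real.zero_rpow hp0.ne']
    rw [h0] at hRI
    simp at hRI
  have h := hc R.natDegree R hRne le_rfl
  have h' : pnorm p (S R) ≤ max c 0 * pnorm p R := by
    refine h.trans ?_
    have : 0 ≤ pnorm p R := by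
      rw [pnorm_eq]
      exact Real.rpow_nonneg (mul_nonneg (by positivity) (I_nonneg p R)) _
    gcongr
    exact le_max_left _ _
  rw [pnorm_eq, pnorm_eq] at h'
  have hI1 : 0 ≤ 2 * π * I p (S R) := mul_nonneg (by positivity) (I_nonneg p _)
  have hI2 : 0 ≤ 2 * π * I p R := mul_nonneg (by positivity) (I_nonneg p _)
  have h3 := Real.rpow_le_rpow (Real.rpow_nonneg hI1 _) h' hp0.le
  rw [Real.mul_rpow (le_max_right _ _) (Real.rpow_nonneg hI2 _), ← Real.rpow_mul hI1,
    ← Real.rpow_mul hI2, one_div, inv_mul_cancel₀ hp0.ne', Real.rpow_one, Real.rpow_one] at h3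
  have h4 : I p (S R) ≤ (max c 0) ^ p * I p R := by
    have : (2 * π) * I p (S R) ≤ (2 * π) * ((max c 0) ^ p * I p R) := by
      calc _ ≤ _ := h3
        _ = _ := by ring
    exact le_of_mul_le_mul_left this (by positivity)
  have h5 : r ^ (k + 1) * I p R < (max c 0) ^ p * I p R := hRI.trans_le h4
  have h6 : (max c 0) ^ p ≤ r ^ (k + 1) := by
    refine hk.le.trans ?_
    exact pow_le_pow_right₀ hr1.le (Nat.le_succ k)
  have h7 := mul_le_mul_of_nonneg_right h6 (I_nonneg p R)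
  linarith

end Pool.Agent.Results.MP_2fd64a_an.Unbounded
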